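import Pool.Agent.Helper41.Girth4.Stmts

/-!
# Packet K for MP_246f82_co

If `B` is independent and hits all port paths with `n` edges, where `n` is smaller than the girth,
then the graph is 3-colourable.
-/

namespace Pool.Agent.Helper33.Girth4

open Finset Pool.Agent.Helper41.Girth4

universe u

/-- A non-backtracking sequence of adjacent vertices is followed by a port word. -/
lemma follow {V W : Type u} {G : SimpleGraph V} {H : PG (V ⊕ W)}
    (hG : ∀ u v, G.Adj u v ↔ ∃ i, H.nb (Sum.inl u) i = Sum.inl v) :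
    ∀ (n : ℕ) (u : ℕ → V) (q : Fin 4), (∀ k < n, G.Adj (u k) (u (k + 1))) →
      (∀ k, k + 2 ≤ n → u k ≠ u (k + 2)) →
      (1 ≤ n → ∃ i, i ≠ q ∧ H.nb (Sum.inl (u 0)) i = Sum.inl (u 1)) →
      ∃ w : List (Fin 3), w.length = n ∧
        ∀ k ≤ n, (H.go (Sum.inl (u 0), q) (w.take k)).1 = Sum.inl (u k) := by
  intro n
  induction n with
  | zero =>
    intro u q _ _ _
    refine ⟨[], rfl, ?_⟩
    intro k hk
    have : k = 0 := by omega
    subst this
    rfl
  | succ n ih =>
    intro u q hadj hne hq
    obtain ⟨i, hiq, hi⟩ := hq (by omega)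
    obtain ⟨c, hc⟩ := Fin.exists_succAbove_eq hiq
    have hback : H.nb (Sum.inl (u 1)) (H.rev (Sum.inl (u 0)) i) = Sum.inl (u 0) := by
      have := H.nb_rev (Sum.inl (u 0)) i
      rwa [hi] at this
    obtain ⟨w, hw, hgo⟩ := ih (fun k => u (k + 1)) (H.rev (Sum.inl (u 0)) i)
      (fun k hk => hadj (k + 1) (by omega)) (fun k hk => hne (k + 1) (by omega))
      (by
        intro h1
        obtain ⟨i', hi'⟩ := (hG (u 1) (u 2)).1 (hadj 1 (by omega))
        refine ⟨i', ?_, hi'⟩
        rintro rfl
        rw [hback] at hi'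
        exact hne 0 (by omega) (Sum.inl_injective hi'))
    have hstep : H.step (Sum.inl (u 0), q) c = (Sum.inl (u 1), H.rev (Sum.inl (u 0)) i) := by
      simp only [PG.step]
      rw [hc, hi]
    refine ⟨c :: w, by simp [hw], ?_⟩
    intro k hk
    cases k with
    | zero => rfl
    | succ k =>
      rw [List.take_succ_cons]
      change (H.go (H.step (Sum.inl (u 0), q) c) (w.take k)).1 = Sum.inl (u (k + 1))
      rw [hstep]
      exact hgo k (by omega)

/-- Packet K. -/
theorem stmtColor : StmtColor.{u} := by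
  classical
  intro V W _ G H n B hG hn hind hhit
  set A : Set V := {v | ¬ B (Sum.inl v)} with hA
  have hac : (G.induce A).IsAcyclic := by
    intro a c hc
    have hlen : n + 1 ≤ c.length := by
      have h1 : (G.induce A).IsContained G := ⟨(SimpleGraph.Embedding.induce A).toCopy⟩
      have h2 := SimpleGraph.IsContained.egirth_le h1
      have h3 := SimpleGraph.egirth_le_length hc
      have h4 : (n : ℕ∞) < (c.length : ℕ∞) := lt_of_lt_of_le hn (h2.trans h3)
      have h5 : n < c.length := by exact_mod_cast h4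
      omega
    set u : ℕ → V := fun k => (c.getVert k : V) with hu
    have hadj : ∀ k < n, G.Adj (u k) (u (k + 1)) := by
      intro k hk
      have := c.adj_getVert_succ (i := k) (by omega)
      exact this
    have hne : ∀ k, k + 2 ≤ n → u k ≠ u (k + 2) := by
      intro k hk he
      have h1 : c.getVert k = c.getVert (k + 2) := Subtype.ext he
      have hk1 : k ∈ {i | i ≤ c.length - 1} := by show k ≤ c.length - 1; omega
      have hk2 : k + 2 ∈ {i | i ≤ c.length - 1} := by show k + 2 ≤ c.length - 1; omega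
      have := hc.getVert_injOn' hk1 hk2 h1
      omega
    have hq : ∃ q : Fin 4, 1 ≤ n → ∃ i, i ≠ q ∧ H.nb (Sum.inl (u 0)) i = Sum.inl (u 1) := by
      by_cases h1 : 1 ≤ n
      · obtain ⟨i, hi⟩ := (hG (u 0) (u 1)).1 (hadj 0 (by omega))
        refine ⟨i + 1, fun _ => ⟨i, ?_, hi⟩⟩
        intro h
        have : ∀ j : Fin 4, j ≠ j + 1 := by decide
        exact this i h
      · exact ⟨0, fun h => absurd h h1⟩
    obtain ⟨q, hq⟩ := hq
    obtain ⟨w, hw, hgo⟩ := follow hG n u q hadj hne hq
    subst hw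
    obtain ⟨k, hk, hB⟩ := hhit (u 0) q w.get
    rw [List.ofFn_get, hgo k hk] at hB
    exact (c.getVert k).2 hB
  obtain ⟨C⟩ := hac.colorable_two
  refine ⟨SimpleGraph.Coloring.mk
    (fun v => if h : B (Sum.inl v) then (Fin.last 2) else Fin.castSucc (C ⟨v, h⟩)) ?_⟩
  intro v w hvw
  by_cases hv : B (Sum.inl v) <;> by_cases hw : B (Sum.inl w)
  · exact absurd ⟨hv, hw⟩ (hind v w hvw)
  · simp only [hv, hw, dif_pos, dif_neg, not_false_iff]
    exact (Fin.castSucc_lt_last _).ne'
  · simp only [hv, hw, dif_pos, dif_neg, not_false_iff]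
    exact (Fin.castSucc_lt_last _).ne
  · simp only [hv, hw, dif_neg, not_false_iff]
    intro h
    have h1 := Fin.castSucc_injective _ h
    have h2 : (G.induce A).Adj ⟨v, hv⟩ ⟨w, hw⟩ := hvw
    exact C.valid h2 h1

end Pool.Agent.Helper33.Girth4
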